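import Pool.Agent.helper84.DM.Defs
import Pool.Agent.helper21.DM.PJ
import Pool.Agent.helper91.DM.GA
import Pool.Agent.helper44.DM.ZG

/-!
DM project, module NA: lower bound of the circle average of log|zeta| on the left.
-/

set_option autoImplicit false

open Complex Metric MeasureTheory

namespace Pool.Agent.helper84.DM

private lemma NA_sq (z w : ℂ) : ‖z - w‖ ^ 2 = (z.re - w.re) ^ 2 + (z.im - w.im) ^ 2 := by
  rw [← Complex.normSq_eq_norm_sq, Complex.normSq_apply, sub_re, sub_im]
  ring

private lemma NA_pk (α a R t : ℝ) {z : ℂ} (hz : ‖z - cen α R t‖ = R) :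
    poissonKernel (cen α R t) (bas α a t) z
      = (2 * a * R - a ^ 2) / ‖z - bas α a t‖ ^ 2 := by
  rw [poissonKernel_def, hz]
  have h1 : ‖bas α a t - cen α R t‖ ^ 2 = (R - a) ^ 2 := by
    rw [NA_sq]
    unfold bas cen
    simp
    ring
  have h2 : z - cen α R t - (bas α a t - cen α R t) = z - bas α a t := by ring
  rw [h1, h2]
  congr 1
  ring

private lemma NA_bas_mem {α a R t : ℝ} (ha : 0 < a) (haR : a < R) :
    bas α a t ∈ ball (cen α R t) R := by
  rw [mem_ball, dist_eq_norm]
  have h1 : ‖bas α a t - cen α R t‖ ^ 2 = (R - a) ^ 2 := by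
    rw [NA_sq]
    unfold bas cen
    simp
    ring
  have h2 : ‖bas α a t - cen α R t‖ = R - a := by
    have := abs_eq_abs.2 (Or.inl (rfl : R - a = R - a))
    rw [← abs_of_nonneg (norm_nonneg (bas α a t - cen α R t)), ← abs_of_pos (sub_pos.2 haR)]
    exact sq_eq_sq_iff_abs_eq_abs _ _ |>.1 h1
  rw [h2]
  linarith

private lemma NA_pk_cont {α a R t : ℝ} (ha : 0 < a) (haR : a < R) :
    CircleIntegrable (poissonKernel (cen α R t) (bas α a t)) (cen α R t) R := by
  have hR : 0 < R := ha.trans haR
  apply ContinuousOn.circleIntegrable hR.le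
  have hmem := NA_bas_mem (α := α) (t := t) ha haR
  unfold poissonKernel
  apply ContinuousOn.div
  · fun_prop
  · fun_prop
  · intro z hz h0
    have h1 : z - cen α R t - (bas α a t - cen α R t) = z - bas α a t := by ring
    rw [h1] at h0
    have h2 : z = bas α a t := by
      have : ‖z - bas α a t‖ = 0 := by
        exact pow_eq_zero_iff (two_ne_zero) |>.1 h0
      exact sub_eq_zero.1 (norm_eq_zero.1 this)
    rw [h2] at hz
    rw [mem_sphere] at hz
    rw [mem_ball] at hmem
    linarith

private lemma NA_pk_one {α a R t : ℝ} (ha : 0 < a) (haR : a < R) :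
    Real.circleAverage (poissonKernel (cen α R t) (bas α a t)) (cen α R t) R = 1 := by
  have h := InnerProductSpace.HarmonicOnNhd.circleAverage_poissonKernel_smul
    (f := fun _ : ℂ => (1 : ℝ)) (c := cen α R t) (R := R)
    (InnerProductSpace.harmonicOnNhd_const (1 : ℝ)) (NA_bas_mem (α := α) (t := t) ha haR)
  have e : (poissonKernel (cen α R t) (bas α a t) • fun _ : ℂ => (1 : ℝ))
      = poissonKernel (cen α R t) (bas α a t) := by
    ext z
    simp
  rw [e] at h
  exact h

private lemma NA_pk_nonneg {α a R t : ℝ} (ha : 0 < a) (haR : a < R) {z : ℂ}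
    (hz : ‖z - cen α R t‖ = R) : 0 ≤ poissonKernel (cen α R t) (bas α a t) z := by
  rw [NA_pk α a R t hz]
  apply div_nonneg _ (by positivity)
  nlinarith

private lemma NA_im {α R t : ℝ} {z : ℂ} (hz : ‖z - cen α R t‖ ≤ R) :
    t - R ≤ z.im ∧ z.im ≤ t + R := by
  have h := (Complex.abs_im_le_norm (z - cen α R t)).trans hz
  rw [abs_le] at h
  simp [cen] at h
  constructor <;> linarith [h.1, h.2]

private lemma NA_re {α R t : ℝ} {z : ℂ} (hz : ‖z - cen α R t‖ ≤ R) : α ≤ z.re := by
  have h := (Complex.abs_re_le_norm (z - cen α R t)).trans hz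
  rw [abs_le] at h
  simp [cen] at h
  linarith [h.1]

private lemma NA_an {α R t : ℝ} (ht : R + 1 ≤ t) :
    AnalyticOnNhd ℂ riemannZeta (closedBall (cen α R t) R) := by
  have h1 : AnalyticOnNhd ℂ riemannZeta {1}ᶜ := by
    apply DifferentiableOn.analyticOnNhd _ isOpen_compl_singleton
    intro z hz
    exact (differentiableAt_riemannZeta hz).differentiableWithinAt
  apply h1.mono
  intro z hz
  rw [mem_closedBall, dist_eq_norm] at hz
  have h2 := NA_im hz
  intro h3
  rw [Set.mem_singleton_iff] at h3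
  rw [h3] at h2
  simp at h2
  linarith [h2.1]

private lemma NA_inner {δ R U x v : ℝ} (hδ : 0 < δ) (hδ1 : δ ≤ 1 / 2) (hU : 8 ≤ U)
    (hUR : U ^ 2 ≤ δ * R) (hx : 0 ≤ x) (hc : (x - R) ^ 2 + v ^ 2 = R ^ 2)
    (hs : (x - (2 + δ)) ^ 2 + v ^ 2 < U ^ 2) : x ≤ δ ∧ |v| < U := by
  have hU2 : 64 ≤ U ^ 2 := by nlinarith
  have hR : 128 ≤ R := by
    by_contra hcon
    push Not at hcon
    have : δ * R < 64 := by
      rcases le_or_gt R 0 with h | h
      · nlinarith
      · nlinarith
    linarith
  constructor
  · by_contra hcon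
    push Not at hcon
    have h0 : x ^ 2 + v ^ 2 = 2 * R * x := by linarith [hc, (by ring : (x - R) ^ 2 = x ^ 2 - 2 * R * x + R ^ 2)]
    have h1 : (2 * R - 5) * x < U ^ 2 := by
      have e : (x - (2 + δ)) ^ 2 = x ^ 2 - 2 * (2 + δ) * x + (2 + δ) ^ 2 := by ring
      have e2 : 2 * (2 + δ) * x ≤ 5 * x := by
        apply mul_le_mul_of_nonneg_right _ hx
        linarith
      have e3 : 0 ≤ (2 + δ) ^ 2 := sq_nonneg _
      rw [e] at hs
      linarith
    have h2 : (2 * R - 5) * δ ≤ (2 * R - 5) * x := by
      apply mul_le_mul_of_nonneg_left hcon.le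
      linarith
    have h3 : (2 * R - 5) * δ = 2 * (δ * R) - 5 * δ := by ring
    linarith
  · apply abs_lt_of_sq_lt_sq _ (by linarith)
    linarith [sq_nonneg (x - (2 + δ))]

/-- the main pointwise inequality -/
private lemma NA_point {δ U R t c C₀ : ℝ} (hδ : 0 < δ) (hδ1 : δ ≤ 1 / 2) (hU : 8 ≤ U)
    (hR : U ^ 2 / δ ≤ R) (ht : 2 * R + 2 * U + 10 ≤ t) (hc : 0 < c) (hC₀ : 0 < C₀)
    (hlow : ∀ s : ℂ, -1 ≤ s.re → s.re ≤ -1 / 2 → 1 ≤ |s.im| → c * |s.im| ≤ ‖riemannZeta s‖)
    (hup : ∀ s : ℂ, -1 ≤ s.re → 1 ≤ |s.im| → ‖riemannZeta s‖ ≤ C₀ * |s.im| ^ 3)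
    {z : ℂ} (hz : ‖z - cen (-1 / 2 - δ) R t‖ = R) :
    poissonKernel (cen (-1 / 2 - δ) R t) (bas (-1 / 2 - δ) (2 + δ) t) z
        * (Real.log t - |Real.log (c / 2)|)
      - 20 / U * (poissonKernel (cen (-1 / 2 - δ) R t) (bas (-1 / 2 - δ) U t) z
          * (4 * Real.log t + |Real.log (8 * C₀)|)
        - poissonKernel (cen (-1 / 2 - δ) R t) (bas (-1 / 2 - δ) U t) z
          * Real.log ‖riemannZeta z‖)
      ≤ poissonKernel (cen (-1 / 2 - δ) R t) (bas (-1 / 2 - δ) (2 + δ) t) z
          * Real.log ‖riemannZeta z‖ := by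
  have hUR : U ^ 2 ≤ δ * R := by
    rw [div_le_iff₀ hδ] at hR
    linarith
  have hRpos : 0 < R := by
    have : 0 < U ^ 2 / δ := by positivity
    linarith
  have hUltR : U < R := by nlinarith
  have hRU2 : 2 * U ^ 2 ≤ R := by nlinarith
  have him := NA_im hz.le
  have hre := NA_re hz.le
  have ht1 : 1 ≤ t := by linarith
  have hlogt : 0 ≤ Real.log t := Real.log_nonneg ht1
  set Pa := poissonKernel (cen (-1 / 2 - δ) R t) (bas (-1 / 2 - δ) (2 + δ) t) z with hPa
  set PU := poissonKernel (cen (-1 / 2 - δ) R t) (bas (-1 / 2 - δ) U t) z with hPU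
  have hPa0 : 0 ≤ Pa := NA_pk_nonneg (by linarith) (by nlinarith) hz
  have hPU0 : 0 ≤ PU := NA_pk_nonneg (by linarith) hUltR hz
  set L := Real.log ‖riemannZeta z‖ with hL
  -- upper bound of L
  have hLup : L ≤ 3 * Real.log t + |Real.log (8 * C₀)| := by
    rcases eq_or_ne (riemannZeta z) 0 with h0 | h0
    · rw [hL, h0, norm_zero, Real.log_zero]
      positivity
    · have h1 := hup z (by linarith) (by rw [abs_of_nonneg (by linarith)]; linarith)
      have h2 : ‖riemannZeta z‖ ≤ (8 * C₀) * t ^ 3 := by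
        refine h1.trans ?_
        have h3 : |z.im| ≤ 2 * t := by
          rw [abs_of_nonneg (by linarith)]
          linarith
        calc C₀ * |z.im| ^ 3 ≤ C₀ * (2 * t) ^ 3 := by
              apply mul_le_mul_of_nonneg_left _ hC₀.le
              exact pow_le_pow_left₀ (abs_nonneg _) h3 3
          _ = (8 * C₀) * t ^ 3 := by ring
      have h4 := Real.log_le_log (norm_pos_iff.2 h0) h2
      rw [Real.log_mul (by positivity) (by positivity), Real.log_pow] at h4
      push_cast at h4
      have h5 := le_abs_self (Real.log (8 * C₀))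
      linarith
  set M := 4 * Real.log t + |Real.log (8 * C₀)| with hM
  have hML : Real.log t ≤ M - L := by linarith
  have hML0 : 0 ≤ M - L := hlogt.trans hML
  have hmain : Pa * (Real.log t - |Real.log (c / 2)| - L) ≤ 20 / U * (PU * (M - L)) := by
    rcases lt_or_ge ‖z - bas (-1 / 2 - δ) (2 + δ) t‖ U with hin | hout
    · -- inner
      have hrhs : 0 ≤ 20 / U * (PU * (M - L)) := by positivity
      refine le_trans ?_ hrhs
      apply mul_nonpos_of_nonneg_of_nonpos hPa0
      have hsq : ‖z - bas (-1 / 2 - δ) (2 + δ) t‖ ^ 2 < U ^ 2 :=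
        pow_lt_pow_left₀ hin (norm_nonneg _) two_ne_zero
      rw [NA_sq] at hsq
      have hcirc : ‖z - cen (-1 / 2 - δ) R t‖ ^ 2 = R ^ 2 := by rw [hz]
      rw [NA_sq] at hcirc
      have e1 : (bas (-1 / 2 - δ) (2 + δ) t).re = 3 / 2 := by
        simp [bas]
        ring
      have e2 : (bas (-1 / 2 - δ) (2 + δ) t).im = t := by simp [bas]
      have e3 : (cen (-1 / 2 - δ) R t).re = -1 / 2 - δ + R := by simp [cen]
      have e4 : (cen (-1 / 2 - δ) R t).im = t := by simp [cen]
      rw [e1, e2] at hsq
      rw [e3, e4] at hcirc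
      have hx0 : 0 ≤ z.re + 1 / 2 + δ := by linarith
      have f1 : z.re - (-1 / 2 - δ + R) = (z.re + 1 / 2 + δ) - R := by ring
      have f2 : z.re - 3 / 2 = (z.re + 1 / 2 + δ) - (2 + δ) := by ring
      rw [f1] at hcirc
      rw [f2] at hsq
      obtain ⟨hxδ, hv⟩ := NA_inner hδ hδ1 hU hUR hx0 hcirc hsq
      have himt : U ≤ t / 2 := by linarith
      have himz : t / 2 ≤ z.im := by
        rw [abs_lt] at hv
        linarith [hv.1]
      have h4 := hlow z (by linarith) (by linarith) (by rw [abs_of_nonneg (by linarith)]; linarith)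
      rw [abs_of_nonneg (by linarith)] at h4
      have h5 : c / 2 * t ≤ ‖riemannZeta z‖ := by
        have g1 : c * (t / 2) ≤ c * z.im := mul_le_mul_of_nonneg_left himz hc.le
        have g2 : c / 2 * t = c * (t / 2) := by ring
        rw [g2]
        exact g1.trans h4
      have h6 := Real.log_le_log (by positivity) h5
      rw [Real.log_mul (by positivity) (by positivity)] at h6
      have h7 := neg_abs_le (Real.log (c / 2))
      linarith
    · -- outer
      have hPaPU : Pa ≤ 20 / U * PU := by
        rw [hPa, hPU, NA_pk _ _ _ _ hz, NA_pk _ _ _ _ hz]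
        have hd : ‖z - bas (-1 / 2 - δ) U t‖ ≤ 2 * ‖z - bas (-1 / 2 - δ) (2 + δ) t‖ := by
          have h1 : z - bas (-1 / 2 - δ) U t = (z - bas (-1 / 2 - δ) (2 + δ) t)
              + (bas (-1 / 2 - δ) (2 + δ) t - bas (-1 / 2 - δ) U t) := by ring
          have h2 : ‖bas (-1 / 2 - δ) (2 + δ) t - bas (-1 / 2 - δ) U t‖ ≤ U := by
            have h3 : bas (-1 / 2 - δ) (2 + δ) t - bas (-1 / 2 - δ) U t = ((2 + δ - U : ℝ) : ℂ) := by
              unfold bas
              push_cast
              ring
            rw [h3, Complex.norm_real, Real.norm_eq_abs, abs_le]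
            constructor <;> linarith
          rw [h1]
          refine (norm_add_le _ _).trans ?_
          linarith
        have hpos : 0 < ‖z - bas (-1 / 2 - δ) (2 + δ) t‖ := by linarith
        have hposU : 0 < ‖z - bas (-1 / 2 - δ) U t‖ := by
          rw [norm_pos_iff, sub_ne_zero]
          intro hcon
          have hmem := NA_bas_mem (α := -1 / 2 - δ) (t := t) (by linarith : 0 < U) hUltR
          rw [← hcon, mem_ball, dist_eq_norm] at hmem
          linarith
        have hd2 : ‖z - bas (-1 / 2 - δ) U t‖ ^ 2 ≤ 4 * ‖z - bas (-1 / 2 - δ) (2 + δ) t‖ ^ 2 := by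
          have := pow_le_pow_left₀ (norm_nonneg _) hd 2
          nlinarith
        have hnum : 4 * (2 * (2 + δ) * R - (2 + δ) ^ 2) ≤ 20 / U * (2 * U * R - U ^ 2) := by
          have e : 20 / U * (2 * U * R - U ^ 2) = 20 * (2 * R - U) := by
            field_simp
          rw [e]
          nlinarith
        have hnum0 : 0 ≤ 2 * (2 + δ) * R - (2 + δ) ^ 2 := by nlinarith
        calc (2 * (2 + δ) * R - (2 + δ) ^ 2) / ‖z - bas (-1 / 2 - δ) (2 + δ) t‖ ^ 2
            ≤ (4 * (2 * (2 + δ) * R - (2 + δ) ^ 2)) / ‖z - bas (-1 / 2 - δ) U t‖ ^ 2 := by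
              rw [div_le_div_iff₀ (by positivity) (by positivity)]
              nlinarith
          _ ≤ (20 / U * (2 * U * R - U ^ 2)) / ‖z - bas (-1 / 2 - δ) U t‖ ^ 2 := by
              apply div_le_div_of_nonneg_right hnum (by positivity)
          _ = 20 / U * ((2 * U * R - U ^ 2) / ‖z - bas (-1 / 2 - δ) U t‖ ^ 2) := by ring
      have h1 : Real.log t - |Real.log (c / 2)| - L ≤ M - L := by
        have := abs_nonneg (Real.log (c / 2))
        have h8 : 0 ≤ |Real.log (8 * C₀)| := abs_nonneg _
        linarith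
      calc Pa * (Real.log t - |Real.log (c / 2)| - L) ≤ Pa * (M - L) :=
            mul_le_mul_of_nonneg_left h1 hPa0
        _ ≤ 20 / U * PU * (M - L) := mul_le_mul_of_nonneg_right hPaPU hML0
        _ = 20 / U * (PU * (M - L)) := by ring
  have e1 : Pa * (Real.log t - |Real.log (c / 2)| - L)
      = Pa * (Real.log t - |Real.log (c / 2)|) - Pa * L := by ring
  have e2 : 20 / U * (PU * (M - L)) = 20 / U * (PU * M - PU * L) := by ring
  rw [e1, e2] at hmain
  linarith

theorem na (δ : ℝ) (hδ : 0 < δ) (hδ1 : δ ≤ 1 / 2) : ∃ C : ℝ, 0 < C ∧ ∀ U R : ℝ, 8 ≤ U →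
    U ^ 2 / δ ≤ R → ∃ T₀ : ℝ, ∀ t : ℝ, T₀ ≤ t →
      (1 - C / U) * Real.log t - C ≤ Lam (-1 / 2 - δ) (2 + δ) R t := by
  obtain ⟨c, hc, hlow⟩ := zeta_left_lower
  obtain ⟨C₀, hC₀, hup⟩ := zeta_poly
  obtain ⟨C₁, hC₁, hright⟩ := zeta_right
  refine ⟨80 + |Real.log (c / 2)| + 3 * |Real.log (8 * C₀)| + 3 * C₁, by positivity, ?_⟩
  intro U R hU hR
  refine ⟨2 * R + 2 * U + 10, ?_⟩
  intro t ht
  have hUR : U ^ 2 ≤ δ * R := by
    rw [div_le_iff₀ hδ] at hR
    linarith
  have hRpos : 0 < R := by
    have : 0 < U ^ 2 / δ := by positivity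
    linarith
  have hUltR : U < R := by nlinarith
  have han := NA_an (α := -1 / 2 - δ) (R := R) (t := t) (by linarith)
  set α : ℝ := -1 / 2 - δ with hα
  have hwa : riemannZeta (bas α (2 + δ) t) ≠ 0 := by
    have := (hright (bas α (2 + δ) t) (by simp [bas, hα]; linarith)).1
    have h2 : 0 < ‖riemannZeta (bas α (2 + δ) t)‖ := (Real.exp_pos _).trans_le this
    exact norm_pos_iff.1 h2
  have hwU' := (hright (bas α U t) (by simp [bas, hα]; linarith)).1
  have hwU : riemannZeta (bas α U t) ≠ 0 := by
    have h2 : 0 < ‖riemannZeta (bas α U t)‖ := (Real.exp_pos _).trans_le hwU'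
    exact norm_pos_iff.1 h2
  have hmema := NA_bas_mem (α := α) (t := t) (a := 2 + δ) (R := R) (by linarith) (by nlinarith)
  have hmemU := NA_bas_mem (α := α) (t := t) (a := U) (R := R) (by linarith) hUltR
  obtain ⟨hia, -⟩ := poisson_jensen hRpos han hmema hwa
  obtain ⟨hiU, hjU⟩ := poisson_jensen hRpos han hmemU hwU
  -- lower bound for the average at the far point
  have hUlow : -C₁ ≤ Real.circleAverage (fun z => poissonKernel (cen α R t) (bas α U t) z
      * Real.log ‖riemannZeta z‖) (cen α R t) R := by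
    rw [hjU]
    have h1 : -C₁ ≤ Real.log ‖riemannZeta (bas α U t)‖ := by
      have := Real.log_le_log (Real.exp_pos _) hwU'
      rwa [Real.log_exp] at this
    have h2 : 0 ≤ ∑ᶠ u ∈ {u : ℂ | u ∈ closedBall (cen α R t) R ∧ riemannZeta u = 0},
          (analyticOrderNatAt riemannZeta u : ℝ) *
            Real.log (‖(R : ℂ) ^ 2 - (starRingEnd ℂ) (bas α U t - cen α R t) * (u - cen α R t)‖
              / (R * ‖bas α U t - u‖)) := by
      apply finsum_nonneg
      intro u
      apply finsum_nonneg
      intro hu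
      obtain ⟨hu1, hu2⟩ := hu
      apply mul_nonneg (Nat.cast_nonneg _)
      rw [grn_eq hRpos (by linarith) hUltR u]
      apply grn_nonneg (by linarith) hUltR hu1
      intro hcon
      rw [hcon] at hu2
      exact hwU hu2
    linarith
  have hav := Real.circleAverage_mono (c := cen α R t) (R := R)
    (f₁ := fun z => poissonKernel (cen α R t) (bas α (2 + δ) t) z
        * (Real.log t - |Real.log (c / 2)|)
      - 20 / U * (poissonKernel (cen α R t) (bas α U t) z
          * (4 * Real.log t + |Real.log (8 * C₀)|)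
        - poissonKernel (cen α R t) (bas α U t) z * Real.log ‖riemannZeta z‖))
    (f₂ := fun z => poissonKernel (cen α R t) (bas α (2 + δ) t) z * Real.log ‖riemannZeta z‖)
    ?_ hia ?_
  · have hca := NA_pk_cont (α := α) (t := t) (a := 2 + δ) (R := R) (by linarith) (by nlinarith)
    have hcU := NA_pk_cont (α := α) (t := t) (a := U) (R := R) (by linarith) hUltR
    have h1a := NA_pk_one (α := α) (t := t) (a := 2 + δ) (R := R) (by linarith) (by nlinarith)
    have h1U := NA_pk_one (α := α) (t := t) (a := U) (R := R) (by linarith) hUltR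
    have heval : Real.circleAverage (fun z => poissonKernel (cen α R t) (bas α (2 + δ) t) z
        * (Real.log t - |Real.log (c / 2)|)
      - 20 / U * (poissonKernel (cen α R t) (bas α U t) z
          * (4 * Real.log t + |Real.log (8 * C₀)|)
        - poissonKernel (cen α R t) (bas α U t) z * Real.log ‖riemannZeta z‖)) (cen α R t) R
        = (Real.log t - |Real.log (c / 2)|)
          - 20 / U * ((4 * Real.log t + |Real.log (8 * C₀)|)
            - Real.circleAverage (fun z => poissonKernel (cen α R t) (bas α U t) z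
      * Real.log ‖riemannZeta z‖) (cen α R t) R) := by
      have e : (fun z => poissonKernel (cen α R t) (bas α (2 + δ) t) z
        * (Real.log t - |Real.log (c / 2)|)
      - 20 / U * (poissonKernel (cen α R t) (bas α U t) z
          * (4 * Real.log t + |Real.log (8 * C₀)|)
        - poissonKernel (cen α R t) (bas α U t) z * Real.log ‖riemannZeta z‖))
        = (Real.log t - |Real.log (c / 2)|) • poissonKernel (cen α R t) (bas α (2 + δ) t)
          - (20 / U) • ((4 * Real.log t + |Real.log (8 * C₀)|) •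
            poissonKernel (cen α R t) (bas α U t)
            - fun z => poissonKernel (cen α R t) (bas α U t) z * Real.log ‖riemannZeta z‖) := by
        ext z
        simp only [Pi.sub_apply, Pi.smul_apply, smul_eq_mul]
        ring
      have i1 : CircleIntegrable ((Real.log t - |Real.log (c / 2)|) •
          poissonKernel (cen α R t) (bas α (2 + δ) t)) (cen α R t) R := hca.const_smul
      have i2 : CircleIntegrable ((4 * Real.log t + |Real.log (8 * C₀)|) •
            poissonKernel (cen α R t) (bas α U t)) (cen α R t) R := hcU.const_smul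
      have i3 := i2.sub hiU
      have i4 : CircleIntegrable ((20 / U) • ((4 * Real.log t + |Real.log (8 * C₀)|) •
            poissonKernel (cen α R t) (bas α U t)
            - fun z => poissonKernel (cen α R t) (bas α U t) z * Real.log ‖riemannZeta z‖))
            (cen α R t) R := i3.const_smul
      rw [e, Real.circleAverage_sub i1 i4, Real.circleAverage_smul, Real.circleAverage_smul,
        Real.circleAverage_sub i2 hiU, Real.circleAverage_smul, h1a, h1U]
      simp only [smul_eq_mul, mul_one]
    rw [heval] at hav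
    unfold Lam
    refine le_trans ?_ hav
    have hUpos : 0 < U := by linarith
    have hdiv : 20 / U ≤ 3 := by
      rw [div_le_iff₀ hUpos]
      linarith
    have hdiv0 : 0 ≤ 20 / U := by positivity
    have hlogt : 0 ≤ Real.log t := Real.log_nonneg (by linarith)
    set AV := Real.circleAverage (fun z => poissonKernel (cen α R t) (bas α U t) z
      * Real.log ‖riemannZeta z‖) (cen α R t) R with hAV
    have hA : 0 ≤ |Real.log (c / 2)| := abs_nonneg _
    have hB : 0 ≤ |Real.log (8 * C₀)| := abs_nonneg _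
    have hX : 20 / U * ((4 * Real.log t + |Real.log (8 * C₀)|) - AV)
        ≤ 80 / U * Real.log t + 3 * |Real.log (8 * C₀)| + 3 * C₁ := by
      have h1 : 20 / U * ((4 * Real.log t + |Real.log (8 * C₀)|) - AV)
          ≤ 20 / U * (4 * Real.log t + (|Real.log (8 * C₀)| + C₁)) := by
        apply mul_le_mul_of_nonneg_left _ hdiv0
        linarith
      have h2 : 20 / U * (4 * Real.log t + (|Real.log (8 * C₀)| + C₁))
          = 80 / U * Real.log t + 20 / U * (|Real.log (8 * C₀)| + C₁) := by ring
      have h3 : 20 / U * (|Real.log (8 * C₀)| + C₁) ≤ 3 * (|Real.log (8 * C₀)| + C₁) := by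
        apply mul_le_mul_of_nonneg_right hdiv
        linarith
      linarith
    have hY : 80 / U * Real.log t ≤ (80 + |Real.log (c / 2)| + 3 * |Real.log (8 * C₀)| + 3 * C₁) / U
        * Real.log t := by
      apply mul_le_mul_of_nonneg_right _ hlogt
      apply div_le_div_of_nonneg_right _ hUpos.le
      linarith
    have hZ : (1 - (80 + |Real.log (c / 2)| + 3 * |Real.log (8 * C₀)| + 3 * C₁) / U) * Real.log t
        = Real.log t - (80 + |Real.log (c / 2)| + 3 * |Real.log (8 * C₀)| + 3 * C₁) / U
          * Real.log t := by ring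
    rw [hZ]
    linarith
  · have hca := NA_pk_cont (α := α) (t := t) (a := 2 + δ) (R := R) (by linarith) (by nlinarith)
    have hcU := NA_pk_cont (α := α) (t := t) (a := U) (R := R) (by linarith) hUltR
    have i2 : CircleIntegrable ((4 * Real.log t + |Real.log (8 * C₀)|) •
            poissonKernel (cen α R t) (bas α U t)) (cen α R t) R := hcU.const_smul
    have i1 : CircleIntegrable ((Real.log t - |Real.log (c / 2)|) •
          poissonKernel (cen α R t) (bas α (2 + δ) t)) (cen α R t) R := hca.const_smul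
    have i4 : CircleIntegrable ((20 / U) • ((4 * Real.log t + |Real.log (8 * C₀)|) •
            poissonKernel (cen α R t) (bas α U t)
            - fun z => poissonKernel (cen α R t) (bas α U t) z * Real.log ‖riemannZeta z‖))
            (cen α R t) R := (i2.sub hiU).const_smul
    have i5 := i1.sub i4
    have e : (fun z => poissonKernel (cen α R t) (bas α (2 + δ) t) z
        * (Real.log t - |Real.log (c / 2)|)
      - 20 / U * (poissonKernel (cen α R t) (bas α U t) z
          * (4 * Real.log t + |Real.log (8 * C₀)|)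
        - poissonKernel (cen α R t) (bas α U t) z * Real.log ‖riemannZeta z‖))
        = (Real.log t - |Real.log (c / 2)|) • poissonKernel (cen α R t) (bas α (2 + δ) t)
          - (20 / U) • ((4 * Real.log t + |Real.log (8 * C₀)|) •
            poissonKernel (cen α R t) (bas α U t)
            - fun z => poissonKernel (cen α R t) (bas α U t) z * Real.log ‖riemannZeta z‖) := by
      ext z
      simp only [Pi.sub_apply, Pi.smul_apply, smul_eq_mul]
      ring
    rw [e]
    exact i5
  · intro z hz
    rw [mem_sphere, dist_eq_norm, abs_of_pos hRpos] at hz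
    exact NA_point hδ hδ1 hU hR ht hc hC₀ hlow hup hz

end Pool.Agent.helper84.DM
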